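import Pool.Agent.Helper537_All.MainZ
import Pool.Agent.Helper537_All.Final
import Pool.Agent.Helper537_All.Num2
import Pool.Agent.Helper537_Sym.Num
import Pool.Agent.Helper537_Cos.Hor
set_option autoImplicit false

/-!
Beilinson's regulator on `K_2` of the hyperelliptic curves `z + 1/z = F(x)` over `ℚ`,
`F = t + lam ∏_{i ≤ g} (x - b_i)`, `t ∈ {0, ±1, ±2}`: all classes in `K_2` of the curve
(unramified at all its closed points) which are sums of symbols `{z, u}`, `u` ANY function on the
curve, and of symbols of functions of `x`. They are integral and the regulator is an isomorphism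
on them.
-/

namespace Pool.Agent.Results.MP_15b3df_nt.AllFunctionsIsomorphism

open Polynomial IntermediateField

open Pool.Agent.TH826.MK (KQ symb Torus Unramified)

open Pool.Agent.TH826.HD (PRing isDomain_PRing ppol)

open Pool.Agent.TH826.UH (Sepd sepd_fam sepd_int sepd_dist leadingCoeff_fam smooth_of_sepd)

open Pool.Agent.Helper537_Sym (Fm regR emC dd crit17 critD main one_le_dist)

open Pool.Agent.Helper537_All (eP zF sig VZ Ez)

open Pool.Agent.Helper537_Cos (HUnr)

variable {g : ℕ}

/-- The polynomial `F = t + lam ∏_{i ≤ g} (x - b_i)`. -/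
noncomputable def Fam (b : Fin (g + 1) → ℤ) (lam t : ℤ) : ℚ[X] :=
  C (t : ℚ) + C (lam : ℚ) * ∏ i, (X - C (b i : ℚ))

/-- The integers `b_i` as rational numbers. -/
def bq (b : Fin (g + 1) → ℤ) : Fin (g + 1) → ℚ := fun i => (b i : ℚ)

theorem emC_int (n : ℤ) : emC (n : ℚ) = (n : ℂ) := map_intCast emC n

theorem fam_map (b : Fin (g + 1) → ℤ) (lam t : ℤ) :
    (Fam b lam t).map emC = C (t : ℂ) + C (lam : ℂ) * ∏ i, (X - C ((b i : ℤ) : ℂ)) := by
  unfold Fam
  simp only [Polynomial.map_add, Polynomial.map_mul, Polynomial.map_C, Polynomial.map_prod,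
    Polynomial.map_sub, Polynomial.map_X, emC_int]

theorem fam_aeval (b : Fin (g + 1) → ℤ) (lam t : ℤ) (α : ℂ) :
    aeval α (Fam b lam t) = t + lam * ∏ i, (α - (b i : ℂ)) := by
  unfold Fam
  rw [map_add, map_mul, map_prod, aeval_C, aeval_C]
  simp

theorem fam_eval (b : Fin (g + 1) → ℤ) (lam t : ℤ) (i : Fin (g + 1)) :
    (Fam b lam t).eval (bq b i) = t := by
  unfold Fam bq
  rw [eval_add, eval_C, eval_mul, eval_prod,
    Finset.prod_eq_zero (Finset.mem_univ i) (by simp), mul_zero, add_zero]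

theorem fam_int (b : Fin (g + 1) → ℤ) (lam t : ℤ) (i : ℕ) :
    IsIntegral ℤ ((Fam b lam t).coeff i) := by
  have h : Fam b lam t = (C t + C lam * ∏ i, (X - C (b i)) : ℤ[X]).map (algebraMap ℤ ℚ) := by
    unfold Fam
    simp [Polynomial.map_prod]
  rw [h, Polynomial.coeff_map]
  exact isIntegral_algebraMap

/-- The space `V` generated by the symbols `{z, u}`, where `u` is any non-zero function on the
curve, and by all classes which are invariant under the involution `z ↦ 1/z` (for example all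
symbols of functions of `x`). -/
noncomputable def V (F : ℚ[X]) (L : Type*) [Field L] [Algebra (PRing F) L]
    [IsFractionRing (PRing F) L] : Submodule ℚ (KQ L 2) :=
  Submodule.span ℚ {s | ∃ u : Lˣ, s = symb ![zF F L, u]} ⊔
    LinearMap.eqLocus (KQ.map 2 (sig F L)) LinearMap.id

/-- The classes in `V` which are unramified at all discrete valuations of `L` that are trivial on
`ℚ` (these valuations are the closed points of the smooth projective curve `X` over `ℚ` with
function field `L`, so these are the classes in `V` that come from `K_2(X) ⊗ ℚ`). -/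
noncomputable def VX (F : ℚ[X]) (L : Type*) [Field L] [Algebra (PRing F) L]
    [IsFractionRing (PRing F) L] : Submodule ℚ (KQ L 2) := V F L ⊓ HUnr L

/-- The complex points of the plane curve `z² - F(x) z + 1 = 0` are smooth. -/
def SmoothCurve (F : ℚ[X]) : Prop :=
  ∀ x z : ℂ, z ^ 2 - F.eval₂ emC x * z + 1 = 0 →
    2 * z - F.eval₂ emC x ≠ 0 ∨ (derivative F).eval₂ emC x * z ≠ 0

/-- The space `W` is spanned by the `g` classes `{z, x - b_k} - {z, x - b_0}`. -/
def SpannedBy (F : ℚ[X]) (b : Fin (g + 1) → ℤ) (L : Type*) [Field L] [Algebra (PRing F) L]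
    (W : Submodule ℚ (KQ L 2)) : Prop :=
  ∃ x : Fin (g + 1) → Lˣ,
    (∀ i, (x i : L) = algebraMap (PRing F) L (ppol F (X - C (b i : ℚ)))) ∧
    W = Submodule.span ℚ (Set.range fun k : Fin g =>
      symb ![zF F L, x k.succ] - symb ![zF F L, x 0])

/-- There are different primes `p` and `q ≥ 5` such that `g + 1` is prime to
`p (p - 1) v_p(lam)` and to `v_q(lam)`. -/
def PrimeCond (g : ℕ) (lam : ℤ) : Prop :=
  ∃ p q : ℕ, p.Prime ∧ q.Prime ∧ p ≠ q ∧ 5 ≤ q ∧
    (p * (p - 1) * padicValInt p lam).Coprime (g + 1) ∧ (padicValInt q lam).Coprime (g + 1)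

theorem V_eq (F : ℚ[X]) (L : Type*) [Field L] [Algebra (PRing F) L]
    [IsFractionRing (PRing F) L] : V F L = VZ F L (fun _ => True) := by
  unfold V VZ
  congr 2
  ext s
  constructor
  · rintro ⟨u, rfl⟩
    obtain ⟨P, R, hP, hR, h⟩ := Pool.Agent.Helper537_All.nrm_form (F := F) u
    refine ⟨u, ⟨P, R, hR, trivial, trivial, ?_⟩, rfl⟩
    have h1 := congrArg (fun w : Lˣ => (w : L)) h
    rw [Units.val_mul, Units.val_inv_eq_inv_val,
      Pool.Agent.Helper537_All.pu_val Pool.Agent.Helper537_All.eP_inj hP,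
      Pool.Agent.Helper537_All.pu_val Pool.Agent.Helper537_All.eP_inj hR] at h1
    rw [div_eq_mul_inv]
    exact h1
  · rintro ⟨u, _, h⟩
    exact ⟨u, h⟩

theorem dvd_of_coprime {g : ℕ} (hg : g ≠ 0) {r : ℕ} {lam : ℤ}
    (h : (padicValInt r lam).Coprime (g + 1)) : (r : ℤ) ∣ lam := by
  have h1 : padicValInt r lam ≠ 0 := by
    intro h0
    rw [h0, Nat.coprime_zero_left] at h
    omega
  exact (dvd_pow_self _ h1).trans (padicValInt_dvd lam)

theorem ten_le {g : ℕ} (hg : g ≠ 0) {lam : ℤ} (hlam : lam ≠ 0) {p q : ℕ} (hp : p.Prime)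
    (hq : q.Prime) (hne : p ≠ q) (hq5 : 5 ≤ q) (hcp : (padicValInt p lam).Coprime (g + 1))
    (hcq : (padicValInt q lam).Coprime (g + 1)) : 10 ≤ |lam| := by
  have h1 := dvd_of_coprime hg hcp
  have h2 := dvd_of_coprime hg hcq
  have h3 : IsCoprime (p : ℤ) q := by
    rw [Nat.isCoprime_iff_coprime]
    exact (Nat.coprime_primes hp hq).2 hne
  have h4 := Int.le_of_dvd (abs_pos.2 hlam) ((dvd_abs _ _).2 (h3.mul_dvd h1 h2))
  have h5 : (2 : ℤ) ≤ p := by exact_mod_cast hp.two_le
  have h6 : (5 : ℤ) ≤ q := by exact_mod_cast hq5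
  nlinarith

theorem cases_g {g p c : ℕ} (h : (p * (p - 1) * c).Coprime (g + 1)) :
    g = 0 ∨ g = 2 ∨ 4 ≤ g := by
  have h2 : Even (p * (p - 1)) := Nat.even_mul_pred_self p
  have h3 : ¬ 2 ∣ g + 1 := by
    intro h4
    have h5 : 2 ∣ Nat.gcd (p * (p - 1) * c) (g + 1) :=
      Nat.dvd_gcd (h2.two_dvd.mul_right c) h4
    rw [h] at h5
    omega
  omega

/-- Let `b_0, ..., b_g` be different integers, `lam ≠ 0` and `t` integers with `|t| ≤ 2`, and
suppose that there are different primes `p` and `q ≥ 5` such that `g + 1` is prime to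
`p (p - 1) v_p(lam)` and to `v_q(lam)` (in particular `g` is even). If `g = 2` suppose moreover
that `|lam| ≥ 17` or that the mutual distances of the `b_i` are at least `2`. Put
`F = t + lam ∏ (x - b_i)`. Then the coordinate ring of the plane curve `z² - F(x) z + 1 = 0` over
`ℚ` is a domain and the curve is smooth at its complex points (it is the affine part of a
hyperelliptic curve of genus `g`).

Let `L` be the field of fractions of the coordinate ring, and let `V` be the subspace of
`K_2^M(L) ⊗ ℚ` generated by the symbols `{z, u}`, where `u` is ANY non-zero element of `L`, and by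
all classes which are invariant under the involution `z ↦ 1/z` (for example all symbols of
functions of `x`). Then the classes in `V` which are unramified at all discrete valuations of `L`
that are trivial on `ℚ` (the classes coming from `K_2` of the smooth projective curve over `ℚ`) are
unramified at all discrete valuations of `L` (they are integral), they are exactly the combinations
of the `g` classes `{z, x - b_k} - {z, x - b_0}`, they form a space of dimension exactly `g`, and
there are `g` loops `Γ_l` in the spectrum of `L` such that the regulator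
`r ⊗ w ↦ (r reg_{Γ_l}(w))_l` from its tensor product with `ℝ` to `ℝ^g` is bijective. -/
theorem result (g : ℕ) (b : Fin (g + 1) → ℤ) (hb : Function.Injective b) (lam t : ℤ)
    (hlam : lam ≠ 0) (ht : |t| ≤ 2)
    (hpq : PrimeCond g lam) (h2 : g ≠ 2 ∨ 17 ≤ |lam| ∨ ∀ i j, i ≠ j → 2 ≤ |b i - b j|) :
    IsDomain (PRing (Fam b lam t)) ∧ SmoothCurve (Fam b lam t) ∧
    ∀ (L : Type*) [Field L] [Algebra (PRing (Fam b lam t)) L]
      [IsFractionRing (PRing (Fam b lam t)) L],
      VX (Fam b lam t) L ≤ Unramified L 2 ∧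
      SpannedBy (Fam b lam t) b L (VX (Fam b lam t) L) ∧
      Module.finrank ℚ (VX (Fam b lam t) L) = g ∧
      ∃ Γ : Fin g → Torus L 1, Function.Bijective (regR Γ (VX (Fam b lam t) L)) := by
  have hlam' : (lam : ℂ) ≠ 0 := Int.cast_ne_zero.2 hlam
  have hH : Fm (bq b) (Fam b lam t) (lam : ℚ) t :=
    ⟨Int.cast_ne_zero.2 hlam, fun i j hij => hb (by
      have h1 : (b i : ℚ) = (b j : ℚ) := hij
      exact_mod_cast h1), ht, rfl⟩
  have hti : ∀ i, ∃ (ζ : ℂ) (k : ℕ), k ≠ 0 ∧ ζ ^ k = 1 ∧
      emC ((Fam b lam t).eval (bq b i)) = ζ + ζ⁻¹ := by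
    intro i
    rw [fam_eval, emC_int]
    exact Pool.Agent.Y94.UG.exists_zeta ht
  have hdegF : 0 < (Fam b lam t).natDegree := by
    rw [hH.natDegree]
    exact Nat.succ_pos g
  obtain ⟨p, q, hp, hq, hne, hq5, hcp, hcq⟩ := hpq
  have hcases := cases_g hcp
  have h10 : g ≠ 0 → (10 : ℝ) ≤ |(lam : ℝ)| := by
    intro hg
    have h3 := ten_le hg hlam hp hq hne hq5 (Nat.coprime_mul_iff_left.1 hcp).2 hcq
    exact_mod_cast h3
  have hlamR : (1 : ℝ) ≤ |(lam : ℝ)| := by
    have := Int.one_le_abs hlam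
    exact_mod_cast this
  have htR : |(t : ℝ)| ≤ 2 := by exact_mod_cast ht
  have htn : ‖(t : ℂ)‖ ≤ 2 := by
    rw [Complex.norm_intCast]
    exact_mod_cast ht
  have hmap := fam_map b lam t
  have hlead : ‖((Fam b lam t).map emC).leadingCoeff‖ = |(lam : ℝ)| := by
    rw [leadingCoeff_fam hlam' hmap, Complex.norm_intCast]
  have hsb : (fun j => emC (bq b j)) = fun j => ((b j : ℤ) : ℂ) := by
    funext j
    exact emC_int _
  have hdist : ∀ i j, ‖emC (bq b j) - emC (bq b i)‖ = |(b i : ℝ) - b j| := by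
    intro i j
    have h1 : emC (bq b j) - emC (bq b i) = (((b j : ℝ) - b i : ℝ) : ℂ) := by
      rw [show emC (bq b i) = ((b i : ℤ) : ℂ) from emC_int _,
        show emC (bq b j) = ((b j : ℤ) : ℂ) from emC_int _]
      push_cast
      ring
    rw [h1, Complex.norm_real, Real.norm_eq_abs, abs_sub_comm]
  have hdistD : ∀ D : ℝ, 2 ≤ D → (∀ i j, i ≠ j → D ≤ |(b i : ℝ) - b j|) →
      (2 + |(t : ℝ)|) * 2 ^ (g + 1) < |(lam : ℝ)| * D ^ (g + 1) → ∃ ρ η : ℝ,
      Sepd ((Fam b lam t).map emC) (fun j => ((b j : ℤ) : ℂ)) ρ η ∧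
      (∀ i j, i ≠ j → 0 < dd b ρ i j) ∧
      ∀ p q, p ≠ q → 0 ≤ Real.log |(lam : ℝ)| + Real.log (dd b ρ p q) +
        Real.log (dd b ρ q p) + ∑ j ∈ (Finset.univ.erase p).erase q,
          Real.log (min (dd b ρ p j) (dd b ρ q j)) := by
    intro D hD hsep hlt
    obtain ⟨η, H⟩ := sepd_dist (b := fun i => ((b i : ℤ) : ℂ)) hlam' hmap hD (fun i j hij => by
      rw [← Int.cast_sub, Complex.norm_intCast, Int.cast_sub]
      exact hsep i j hij) htn (by
      rw [Complex.norm_intCast, Complex.norm_intCast]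
      exact hlt)
    refine ⟨D / 2, η, H, fun i j hij => ?_, fun p q hpq => critD hD hsep hlamR p q hpq⟩
    have := hsep i j hij
    unfold dd
    linarith
  obtain ⟨ρ, η, H, hpos, hcrit⟩ : ∃ ρ η : ℝ,
      Sepd ((Fam b lam t).map emC) (fun j => emC (bq b j)) ρ η ∧
      (∀ i j, i ≠ j → 0 < dd b ρ i j) ∧
      ∀ p q, p ≠ q → 0 ≤ Real.log |(lam : ℝ)| + Real.log (dd b ρ p q) +
        Real.log (dd b ρ q p) + ∑ j ∈ (Finset.univ.erase p).erase q,
          Real.log (min (dd b ρ p j) (dd b ρ q j)) := by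
    rw [hsb]
    rcases hcases with hg0 | hg2 | hg4
    · refine hdistD 9 (by norm_num) (fun i j hij => ?_) ?_
      · have h3 := i.isLt
        have h4 := j.isLt
        exact absurd (Fin.ext (by omega)) hij
      · rw [hg0]
        norm_num
        linarith
    · have h10' := h10 (by omega)
      rcases h2 with h2 | h17 | hsep
      · exact absurd hg2 h2
      · have h17' : (17 : ℝ) ≤ |(lam : ℝ)| := by exact_mod_cast h17
        obtain ⟨η, H⟩ := sepd_int hb hlam' hmap htn (by
          rw [Complex.norm_intCast]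
          exact h17')
        refine ⟨1 / 2, η, H, fun i j hij => ?_, fun p q hpq => crit17 hb h17' p q hpq⟩
        have := one_le_dist hb hij
        unfold dd
        linarith
      · refine hdistD 2 le_rfl (fun i j hij => ?_) ?_
        · have h3 := hsep i j hij
          exact_mod_cast h3
        · refine mul_lt_mul_of_pos_right ?_ (by positivity)
          linarith
    · have h10' := h10 (by omega)
      obtain ⟨η, H⟩ : ∃ η, Sepd ((Fam b lam t).map emC) (fun i => ((b i : ℤ) : ℂ)) (1 / 8) η := by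
        refine sepd_fam (b := fun i => ((b i : ℤ) : ℂ)) hlam' hmap (B := 46 / 100) (by norm_num)
          (fun i j hij => ?_) htn
          (fun x hx => Pool.Agent.Helper537_All.prod_dist5 hg4 hb hx) ?_
        · rw [← Int.cast_sub, Complex.norm_intCast, Int.cast_sub]
          have := one_le_dist hb hij
          linarith
        · have h3 : (10 : ℝ) ≤ ‖(lam : ℂ)‖ := by
            rw [Complex.norm_intCast]
            exact h10'
          linarith
      refine ⟨1 / 8, η, H, fun i j hij => ?_, fun p q hpq => ?_⟩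
      · have := one_le_dist hb hij
        unfold dd
        linarith
      · exact Pool.Agent.Helper537_All.crit2 hb (by linarith) p q hpq
  refine ⟨isDomain_PRing hdegF, fun x z h => smooth_of_sepd H h, ?_⟩
  intro L _ _ _
  have hQ : ∀ P : ℚ[X], P ≠ 0 → True → ∀ π : ℚ[X], π.Monic → Irreducible π → π ∣ P →
      π ∉ Pool.Agent.Helper537_All.TB (Fam b lam t) L → (∃ i, π = X - C (bq b i)) ∨
      Pool.Agent.Helper537_Sym.sy (zF (Fam b lam t) L)
        (Pool.Agent.Helper537_All.pu (eP (Fam b lam t) L) π) ∈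
        Pool.Agent.Helper537_All.Fz (Fam b lam t) L := by
    intro P _ _ π hm hi _ hTB
    obtain ⟨α, hα⟩ := Pool.Agent.Helper537_All.exists_croot hi
    obtain ⟨n, hn, h1⟩ := Pool.Agent.Helper537_All.not_tb hm hi hTB
    obtain ⟨ζ, hζ0, hζn, hζ⟩ := h1 α hα
    by_cases hbi : ∃ i, α = ((bq b i : ℚ) : ℂ)
    · obtain ⟨i, rfl⟩ := hbi
      exact Or.inl ⟨i, Pool.Agent.Helper537_All.eq_of_root hm hi hα⟩
    · right
      refine Pool.Agent.Helper537_All.zπ_mem hdegF hm hi hα hζ0 (Nat.pos_of_ne_zero hn) hζn hζ ?_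
      have hαi : IsIntegral ℚ α := ⟨π, hm, hα⟩
      have hfin : 0 < orderOf ζ := orderOf_pos_iff.2
        (isOfFinOrder_iff_pow_eq_one.2 ⟨n, Nat.pos_of_ne_zero hn, hζn⟩)
      have : NeZero (orderOf ζ) := ⟨hfin.ne'⟩
      have h2 := fam_aeval b lam t α
      rw [hζ] at h2
      have h3 : (lam : ℂ) * ∏ i, (α - (b i : ℂ)) = ζ + ζ⁻¹ - t := by
        rw [h2]
        ring
      have h4 : ζ + ζ⁻¹ - t ≠ 0 := by
        rw [← h3]
        refine mul_ne_zero hlam' (Finset.prod_ne_zero_iff.2 fun i _ => ?_)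
        intro h5
        apply hbi
        refine ⟨i, ?_⟩
        unfold bq
        push_cast
        exact sub_eq_zero.1 h5
      have h5 := Pool.Agent.Helper537_All.deg_dvd (IsPrimitiveRoot.orderOf ζ)
        (Nat.succ_ne_zero g) hlam ht hp hq hne hq5 hcp hcq h4 hαi h3
      rw [hH.natDegree, hζ]
      exact Nat.le_of_dvd (minpoly.natDegree_pos hαi.tower_top) h5
  obtain ⟨hmain, hint⟩ := Pool.Agent.Helper537_Cos.main1_hor hH (fam_int b lam t) (fun i => by
      unfold bq
      exact isIntegral_algebraMap (R := ℤ) (x := b i)) hti L (Q := fun _ => True) trivial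
      (fun _ => trivial) hQ
  rw [← V_eq] at hmain
  replace hmain : VX (Fam b lam t) L = Ez (Fam b lam t) L (bq b) := hmain
  refine ⟨hmain ▸ hint, ?_, ?_⟩
  · refine ⟨fun i => Pool.Agent.Helper537_All.pu (eP (Fam b lam t) L) (X - C (bq b i)),
      fun i => Pool.Agent.Helper537_All.pu_val Pool.Agent.Helper537_All.eP_inj
        (X_sub_C_ne_zero _), ?_⟩
    rw [hmain]
    rfl
  rw [hmain]
  refine Pool.Agent.Helper537_All.main2 hH H (dd b ρ)
    (fun i j hij => ⟨hpos i j hij, ?_⟩) (fun p q hpq => ?_) hti L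
  · rw [hdist]
    unfold dd
    linarith
  · rw [hlead]
    exact hcrit p q hpq

end Pool.Agent.Results.MP_15b3df_nt.AllFunctionsIsomorphism
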